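import Pool.Agent.V7H92.S5.Final
import Pool.Agent.V7H92.S227.Final
import Pool.Agent.V7H92.S251.Final
import Pool.Agent.V7H92.S263.Final
import Pool.Agent.V7H92.S311.Final

/-!
New Steiner systems `S(n,6,5)` and `S(n-1,5,4)`.
-/

set_option autoImplicit false

namespace Pool.Agent.Results.MP_409a13_co.ANewFiveDesignsH92

/-- For each `n` in the list there is a family of `6`-subsets of an `n`-set such that every
`5`-subset lies in exactly one of them, and a family of `5`-subsets of an `(n-1)`-set such that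
every `4`-subset lies in exactly one of them. -/
theorem result : ∀ n ∈ ([192, 228, 252, 264, 312] : List ℕ),
    (∃ B : Finset (Finset (Fin n)), (∀ b ∈ B, b.card = 6) ∧
      ∀ T : Finset (Fin n), T.card = 5 → ∃! b, b ∈ B ∧ T ⊆ b) ∧
    ∃ C : Finset (Finset (Fin (n - 1))), (∀ b ∈ C, b.card = 5) ∧
      ∀ T : Finset (Fin (n - 1)), T.card = 4 → ∃! b, b ∈ C ∧ T ⊆ b := by
  intro n hn
  simp only [List.mem_cons, List.not_mem_nil, or_false] at hn
  rcases hn with rfl | rfl | rfl | rfl | rfl
  · exact ⟨Pool.Agent.V7H92.S5.design192, Pool.Agent.V7H92.S5.design191⟩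
  · exact ⟨Pool.Agent.V7H92.S227.design228, Pool.Agent.V7H92.S227.design227⟩
  · exact ⟨Pool.Agent.V7H92.S251.design252, Pool.Agent.V7H92.S251.design251⟩
  · exact ⟨Pool.Agent.V7H92.S263.design264, Pool.Agent.V7H92.S263.design263⟩
  · exact ⟨Pool.Agent.V7H92.S311.design312, Pool.Agent.V7H92.S311.design311⟩

end Pool.Agent.Results.MP_409a13_co.ANewFiveDesignsH92
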