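import Pool.Agent.H367R3.S35.General
import Pool.Agent.H367R3.S35.D302
import Pool.Agent.Y376.ST.D161
import Pool.Agent.Y376.ST.D317
import Pool.Agent.Y376.ST.D326
import Pool.Agent.V7H59.S35.D362
import Pool.Agent.V7H59.S35.D386

/-!
Steiner systems with blocks of size `5` and strength `3`: the new orders `362` and `386` (cyclic,
invariant under all multipliers), and the multiplicative monoid generated by all known values of
`v - 1`, the new ones included.
-/

set_option autoImplicit false

namespace Pool.Agent.Results.MP_409a13_co.BlockFiveNewOrdersH59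

open Pool.Agent.H367R3.S35P

/-- There are Steiner systems with blocks of size `5` and strength `3` on `362` and on `386`
points, and on `u + 1` points for every `u` in the multiplicative monoid generated by
`4, 25, 124, 136, 145, 160, 196, 205, 301, 316, 325, 361, 385, 3124`. -/
theorem result :
    (∀ v ∈ ([362, 386] : List ℕ), ∃ B : Finset (Finset (Fin v)), (∀ b ∈ B, b.card = 5) ∧
      ∀ T : Finset (Fin v), T.card = 3 → ∃! b, b ∈ B ∧ T ⊆ b) ∧
    ∀ u ∈ Submonoid.closure
        ({4, 25, 124, 136, 145, 160, 196, 205, 301, 316, 325, 361, 385, 3124} : Set ℕ),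
      ∃ B : Finset (Finset (Fin (u + 1))), (∀ b ∈ B, b.card = 5) ∧
        ∀ T : Finset (Fin (u + 1)), T.card = 3 → ∃! b, b ∈ B ∧ T ⊆ b := by
  have h161 := Pool.Agent.Y376.ST.ex161
  have h317 := Pool.Agent.Y376.ST.ex317
  have h326 := Pool.Agent.Y376.ST.ex326
  have h362 := Pool.Agent.V7H59.S35.ex362
  have h386 := Pool.Agent.V7H59.S35.ex386
  refine ⟨?_, fun u hu => ?_⟩
  · intro v hv
    simp only [List.mem_cons, List.not_mem_nil, or_false] at hv
    rcases hv with rfl | rfl
    · exact toSteiner h362
    · exact toSteiner h386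
  · refine toSteiner (good_closure ?_ u hu).1
    intro x hx
    simp only [Set.mem_insert_iff, Set.mem_singleton_iff] at hx
    rcases hx with rfl | rfl | rfl | rfl | rfl | rfl | rfl | rfl | rfl | rfl | rfl | rfl | rfl | rfl
    · exact good4
    · exact good25
    · exact good124
    · exact good136
    · exact good145
    · exact ⟨h161, hasOA_mix 5 5 (by norm_num) (by norm_num)⟩
    · exact good196
    · exact good205
    · exact ⟨Pool.Agent.H367R3.S35L.ex302, hasOA_coprime 301 (by norm_num)⟩
    · exact ⟨h317, hasOA_mix 2 79 le_rfl (by norm_num)⟩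
    · exact ⟨h326, hasOA_coprime 325 (by norm_num)⟩
    · exact ⟨h362, hasOA_coprime 361 (by norm_num)⟩
    · exact ⟨h386, hasOA_coprime 385 (by norm_num)⟩
    · exact good3124

end Pool.Agent.Results.MP_409a13_co.BlockFiveNewOrdersH59
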