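import Pool.Agent.V7H92.K6.D166
import Pool.Agent.V7H92.K6.D231
import Pool.Agent.V7H92.K6.D256
import Pool.Agent.V7H92.K6.D261
import Pool.Agent.V7H92.K6.D286
import Pool.Agent.V7H92.K6.D321
import Pool.Agent.V7H92.K6.D346
import Pool.Agent.V7H92.K6.D471
import Pool.Agent.V7H92.K6.D561
import Pool.Agent.V7H92.K6.D591
import Pool.Agent.V7H92.K6.D616
import Pool.Agent.V7H92.K6.D651

/-!
New Steiner systems `S(n,6,2)` (2-(n,6,1) designs), `n = 166, 231, 256, 261, 286, 321, 346, 471, 561, 591, 616, 651`.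
-/

set_option autoImplicit false

namespace Pool.Agent.Results.MP_409a13_co.BlockSixNewOrdersH92

open Pool.Agent.H816R2.KM2

theorem toSteiner {m k : ℕ} (h : ∃ 𝓑 : Set (Finset (Fin m)), IsS2 (Fin m) k 𝓑) :
    ∃ B : Finset (Finset (Fin m)), (∀ b ∈ B, b.card = k) ∧
      ∀ T : Finset (Fin m), T.card = 2 → ∃! b, b ∈ B ∧ T ⊆ b := by
  classical
  obtain ⟨𝓑, h1, h2⟩ := h
  refine ⟨Finset.univ.filter (fun B => B ∈ 𝓑), ?_, ?_⟩
  · intro B hB
    exact h1 B (Finset.mem_filter.1 hB).2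
  · intro T hT
    obtain ⟨a, b, hab, rfl⟩ := Finset.card_eq_two.1 hT
    obtain ⟨B, ⟨hB, ha, hb⟩, hu⟩ := h2 a b hab
    have hsub : ∀ C : Finset (Fin m), ({a, b} : Finset (Fin m)) ⊆ C ↔ a ∈ C ∧ b ∈ C := by
      intro C
      rw [Finset.insert_subset_iff, Finset.singleton_subset_iff]
    refine ⟨B, ⟨Finset.mem_filter.2 ⟨Finset.mem_univ _, hB⟩, (hsub B).2 ⟨ha, hb⟩⟩, ?_⟩
    rintro C ⟨hC, hC'⟩
    obtain ⟨ha', hb'⟩ := (hsub C).1 hC'
    exact hu C ⟨(Finset.mem_filter.1 hC).2, ha', hb'⟩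

/-- There are Steiner systems with blocks of size `6` and strength `2` on `n` points for every `n`
in the list. -/
theorem result : ∀ n ∈ ([166, 231, 256, 261, 286, 321, 346, 471, 561, 591, 616, 651] : List ℕ),
    ∃ B : Finset (Finset (Fin n)), (∀ b ∈ B, b.card = 6) ∧
      ∀ T : Finset (Fin n), T.card = 2 → ∃! b, b ∈ B ∧ T ⊆ b := by
  intro n hn
  simp only [List.mem_cons, List.not_mem_nil, or_false] at hn
  rcases hn with rfl | rfl | rfl | rfl | rfl | rfl | rfl | rfl | rfl | rfl | rfl | rfl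
  · exact toSteiner Pool.Agent.V7H92.K6.ex166
  · exact toSteiner Pool.Agent.V7H92.K6.ex231
  · exact toSteiner Pool.Agent.V7H92.K6.ex256
  · exact toSteiner Pool.Agent.V7H92.K6.ex261
  · exact toSteiner Pool.Agent.V7H92.K6.ex286
  · exact toSteiner Pool.Agent.V7H92.K6.ex321
  · exact toSteiner Pool.Agent.V7H92.K6.ex346
  · exact toSteiner Pool.Agent.V7H92.K6.ex471
  · exact toSteiner Pool.Agent.V7H92.K6.ex561
  · exact toSteiner Pool.Agent.V7H92.K6.ex591
  · exact toSteiner Pool.Agent.V7H92.K6.ex616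
  · exact toSteiner Pool.Agent.V7H92.K6.ex651

end Pool.Agent.Results.MP_409a13_co.BlockSixNewOrdersH92
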