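import Pool.Agent.V7H65.SA.Invol

/-!
# Automorphisms of prime order of Steiner systems

Let `𝓑` be a Steiner system with block size `k` and strength `t`, `t < k < n`, on a set `V` of `n`
points, and let `p > k - t` be a prime. The fixed points of an automorphism of order `p` carry
Steiner systems of strength `b` and block size `b + (k - t)` for all `b` congruent to `t` modulo
`p`. If `k - t + 1 < p < t`, or if `p = k - t + 1` and `t ≥ 2 p + 2`, this leaves only very few
fixed points, however large `n` is, and bounds the order of the groups of automorphisms of order a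
power of `p`.

If `k - t` is odd and an involution has at least one and at most `t - 1` fixed points, then `16`
divides `(n - t + 1) (n - k)`: this generalises the congruence for reverse Steiner triple systems
(`t = 2`). Together: for `k = t + 1`, `t ≥ 6` even and `n = t + 3` or `t + 5` modulo `8` the group of
automorphisms has odd order.
-/

set_option autoImplicit false

namespace Pool.Agent.Results.MP_409a13_co.PrimeAutomorphismsH65

open Pool.Agent.V7H65.SD
open Pool.Agent.V7H65.SA

theorem result (V : Type) [Finite V] (t k : ℕ) (𝓑 : Set (Set V)) (h : IsSteiner t k 𝓑)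
    (htk : t < k) (hkn : k < Nat.card V) :
    (∀ p : ℕ, p.Prime → k - t < p →
      -- (1) the systems on the fixed points
      (∀ σ : Equiv.Perm V, IsAut 𝓑 σ → orderOf σ = p → ∀ b ≤ t, p ∣ t - b →
        t - b ≤ {x | σ x ≠ x}.ncard →
          ∃ 𝓓 : Set (Set ({x | σ x = x} : Set V)), IsSteiner b (b + (k - t)) 𝓓) ∧
      -- (2) the case `k - t + 1 < p < t`
      (k - t + 1 < p → p < t →
        (∀ σ : Equiv.Perm V, IsAut 𝓑 σ → orderOf σ = p →
          {x | σ x = x}.ncard < (t - 1) % p + p) ∧
        ∀ P : Subgroup (Equiv.Perm V), IsPGroup p P → (∀ σ ∈ P, IsAut 𝓑 σ) →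
          Nat.card P ≤ p * Nat.card V ∧
          Nat.card P ∣ ∏ i ∈ (Finset.range ((t - 1) % p + p)).filter
            (fun i => i % p = Nat.card V % p), (Nat.card V - i)) ∧
      -- (3) the case `p = k - t + 1`
      (k - t + 1 = p → 2 * p + 2 ≤ t →
        (∀ σ : Equiv.Perm V, IsAut 𝓑 σ → orderOf σ = p →
          {x | σ x = x}.ncard < (t - 2) % p + p + 2) ∧
        ∀ P : Subgroup (Equiv.Perm V), IsPGroup p P → (∀ σ ∈ P, IsAut 𝓑 σ) →
          Nat.card P ∣ ∏ i ∈ (Finset.range ((t - 2) % p + p + 2)).filter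
            (fun i => i % p = Nat.card V % p), (Nat.card V - i))) ∧
    -- (4) involutions
    (Odd (k - t) → ∀ σ : Equiv.Perm V, IsAut 𝓑 σ → orderOf σ = 2 →
      1 ≤ {x | σ x = x}.ncard → {x | σ x = x}.ncard < t →
        16 ∣ (Nat.card V - (t - 1)) * (Nat.card V - k)) ∧
    -- (5) involutions, `k = t + 1`
    (k = t + 1 → 6 ≤ t → ¬ 16 ∣ (Nat.card V - (t - 1)) * (Nat.card V - k) →
      (Even t → ∀ σ : Equiv.Perm V, IsAut 𝓑 σ → orderOf σ ≠ 2) ∧
      ∀ P : Subgroup (Equiv.Perm V), IsPGroup 2 P → (∀ σ ∈ P, IsAut 𝓑 σ) →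
        Nat.card P ∣ Nat.card V) := by
  refine ⟨?_, ?_, ?_⟩
  · intro p hp hkp
    refine ⟨?_, ?_, fun h1 h2 => second_case h hp htk hkn h1 h2⟩
    · intro σ hσB hσ b hb hd hm
      obtain ⟨a, ha⟩ := hd
      exact fixed_exists h hσB (pow_of_order hσ) hp htk.le (by omega) (a := a) (b := b)
        (by omega) (by rw [← ha]; exact hm)
    · intro h1 h2
      obtain ⟨h3, h4⟩ := first_case h hp htk hkn h1 h2
      exact ⟨h3, fun P hP hPB => ⟨first_case_le h hp htk hkn h1 h2 P hP hPB, h4 P hP hPB⟩⟩
  · intro hodd σ hσB hσ h1 h2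
    exact invol_dvd h hσB (pow_of_order hσ) htk hkn hodd h1 h2
  · rintro rfl ht hn
    exact invol_group h ht hkn hn

end Pool.Agent.Results.MP_409a13_co.PrimeAutomorphismsH65
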